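import Pool.Agent.Helper47.OrbN.Pair

/-!
The groups `G1` and `G2` consist of rotations.
-/

set_option autoImplicit false

namespace Pool.Agent.Helper47.OrbN

variable {n m : ℕ}

theorem det_SP (π : Equiv.Perm (Fin n)) (ε : Fin n → ℝ) :
    (SP π ε).det = ((Equiv.Perm.sign π : ℤ) : ℝ) * ∏ i, ε i := by
  have h : SP π ε = (Matrix.diagonal ε).submatrix id (π⁻¹ : Equiv.Perm (Fin n)) := by
    ext i j
    rw [Matrix.submatrix_apply, Matrix.diagonal_apply]
    unfold SP
    by_cases hij : j = π i
    · rw [if_pos hij, hij, if_pos (by simp)]; rfl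
    · rw [if_neg hij, if_neg]
      intro h'
      apply hij
      have h2 : i = π⁻¹ j := h'
      rw [h2]; simp
  rw [h, Matrix.det_permute', Matrix.det_diagonal, Equiv.Perm.sign_inv]

theorem prod_vec_one (a b c d : ℝ) :
    ∏ i : Fin (m + 4), vec a b c d (fun _ => (1 : ℝ)) i = a * b * c * d := by
  rw [Fin.prod_univ_succ, Fin.prod_univ_succ, Fin.prod_univ_succ, Fin.prod_univ_succ]
  show a * (b * (c * (d * ∏ _j : Fin m, (1 : ℝ)))) = _
  rw [Finset.prod_const_one]
  ring

variable (n) in
/-- rotations -/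
def SOn : Subgroup (O n) where
  carrier := {g | g.1.det = 1}
  mul_mem' := by
    intro a b ha hb
    show (a * b).1.det = 1
    rw [Submonoid.coe_mul, Matrix.det_mul, ha, hb, one_mul]
  one_mem' := by
    show (1 : O n).1.det = 1
    rw [OneMemClass.coe_one, Matrix.det_one]
  inv_mem' := by
    intro a ha
    show (a⁻¹).1.det = 1
    have h1 : (a * a⁻¹).1.det = 1 := by
      rw [mul_inv_cancel, OneMemClass.coe_one, Matrix.det_one]
    rw [Submonoid.coe_mul, Matrix.det_mul, ha, one_mul] at h1
    exact h1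

theorem G1_le : G1 m ≤ SOn (m + 4) := by
  unfold G1
  rw [Subgroup.closure_le]
  intro g hg
  rcases hg with rfl | rfl
  · show (SP _ _).det = 1
    rw [det_SP, prod_vec_one, Equiv.Perm.sign_swap i01]
    norm_num
  · show (SP _ _).det = 1
    rw [det_SP, prod_vec_one, Equiv.Perm.sign_one]
    norm_num

theorem G2_le : G2 m ≤ SOn (m + 4) := by
  unfold G2
  rw [Subgroup.closure_le]
  intro g hg
  rcases hg with rfl | rfl | rfl <;>
  · show (SP _ _).det = 1
    rw [det_SP, prod_vec_one, Equiv.Perm.sign_one]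
    norm_num

end Pool.Agent.Helper47.OrbN
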