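import Pool.Agent.Helper47.OrbN.Pair

/-!
The invariants of `G1` and `G2` of each degree have equal dimension.
-/

set_option autoImplicit false

open MvPolynomial

namespace Pool.Agent.Helper47.OrbN

variable {m : ℕ}

/-- exchange of the first two exponents -/
noncomputable def sw (α : E (m + 4)) : E (m + 4) := Finsupp.equivMapDomain (Equiv.swap i0 i1) α

theorem sw_0 (α : E (m + 4)) : sw α i0 = α i1 := by
  rw [sw, Finsupp.equivMapDomain_apply, Equiv.symm_swap, Equiv.swap_apply_left]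

theorem sw_1 (α : E (m + 4)) : sw α i1 = α i0 := by
  rw [sw, Finsupp.equivMapDomain_apply, Equiv.symm_swap, Equiv.swap_apply_right]

theorem sw_2 (α : E (m + 4)) : sw α i2 = α i2 := by
  rw [sw, Finsupp.equivMapDomain_apply, Equiv.symm_swap,
    Equiv.swap_apply_of_ne_of_ne i02.symm i12.symm]

theorem sw_3 (α : E (m + 4)) : sw α i3 = α i3 := by
  rw [sw, Finsupp.equivMapDomain_apply, Equiv.symm_swap,
    Equiv.swap_apply_of_ne_of_ne i03.symm i13.symm]

theorem sw_t (α : E (m + 4)) : tail (sw α) = tail α := by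
  funext j
  unfold tail
  rw [sw, Finsupp.equivMapDomain_apply, Equiv.symm_swap,
    Equiv.swap_apply_of_ne_of_ne (i0t j).symm (i1t j).symm]

theorem sw_sw (α : E (m + 4)) : sw (sw α) = α := by
  apply e_ext
  · rw [sw_0, sw_1]
  · rw [sw_1, sw_0]
  · rw [sw_2, sw_2]
  · rw [sw_3, sw_3]
  · rw [sw_t, sw_t]

theorem deg_sw (α : E (m + 4)) : deg (sw α) = deg α := by
  rw [deg_eq, deg_eq, sw_0, sw_1, sw_2, sw_3, sw_t]; ring

theorem sw_eq_self (α : E (m + 4)) (h : α i0 = α i1) : sw α = α := by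
  apply e_ext
  · rw [sw_0, h]
  · rw [sw_1, h]
  · rw [sw_2]
  · rw [sw_3]
  · rw [sw_t]

theorem coeff_R (p : P (m + 4)) (α : E (m + 4)) :
    coeff α (act R p) = (-1) ^ α i1 * coeff (sw α) p := by
  have h := coeff_act_sp (Equiv.swap i0 i1) (vec (-1) 1 1 1 (fun _ => 1))
    (vec_sq _ _ _ _ (by norm_num) (by norm_num) (by norm_num) (by norm_num)) p (sw α)
  rw [prod_vec, sw_0] at h
  have h1 : Finsupp.equivMapDomain (Equiv.swap i0 i1) (sw α) = α := sw_sw α
  rw [h1] at h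
  simp only [one_pow, mul_one] at h
  exact h

theorem act_sign_iff (ε : Fin (m + 4) → ℝ) (h : ∀ i, ε i * ε i = 1) (p : P (m + 4)) :
    act (sp 1 ε h) p = p ↔ ∀ α, coeff α p ≠ 0 → ∏ i, ε i ^ α i = 1 := by
  have hc : ∀ α, coeff α (act (sp 1 ε h) p) = (∏ i, ε i ^ α i) * coeff α p := by
    intro α
    have := coeff_act_sp 1 ε h p α
    have h1 : Finsupp.equivMapDomain (1 : Equiv.Perm (Fin (m + 4))) α = α := by
      ext i; rfl
    rwa [h1] at this
  constructor
  · intro h' α hα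
    have h1 := congrArg (coeff α) h'
    rw [hc] at h1
    exact mul_right_cancel₀ hα (by rw [h1, one_mul])
  · intro h'
    ext α
    rw [hc]
    by_cases h0 : coeff α p = 0
    · rw [h0, mul_zero]
    · rw [h' α h0, one_mul]

theorem neg_one_pow_iff (k : ℕ) : ((-1 : ℝ) ^ k = 1) ↔ k % 2 = 0 := by
  rw [neg_one_pow_eq_one_iff_even (by norm_num), Nat.even_iff]

theorem act_T_iff (p : P (m + 4)) :
    act T p = p ↔ ∀ α, coeff α p ≠ 0 → (α i2 + α i3) % 2 = 0 := by
  unfold T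
  rw [act_sign_iff]
  refine forall_congr' fun α => imp_congr_right fun _ => ?_
  rw [← neg_one_pow_iff, prod_vec, pow_add]
  simp

theorem act_T'_iff (p : P (m + 4)) :
    act T' p = p ↔ ∀ α, coeff α p ≠ 0 → (α i0 + α i1) % 2 = 0 := by
  unfold T'
  rw [act_sign_iff]
  refine forall_congr' fun α => imp_congr_right fun _ => ?_
  rw [← neg_one_pow_iff, prod_vec, pow_add]
  simp

theorem act_S_iff (p : P (m + 4)) :
    act S p = p ↔ ∀ α, coeff α p ≠ 0 → (α i0 + α i2) % 2 = 0 := by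
  unfold S
  rw [act_sign_iff]
  refine forall_congr' fun α => imp_congr_right fun _ => ?_
  rw [← neg_one_pow_iff, prod_vec, pow_add]
  simp

variable (m) in
/-- exponents whose first four entries have the same parity -/
def PA : Set (E (m + 4)) :=
  {α | (α i0 + α i1) % 2 = 0 ∧ (α i2 + α i3) % 2 = 0 ∧ (α i0 + α i2) % 2 = 0}

variable (m) in
/-- exponents whose first two and next two entries have the same parity -/
def PS : Set (E (m + 4)) := {α | (α i0 + α i1) % 2 = 0 ∧ (α i2 + α i3) % 2 = 0}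

variable (m) in
/-- representatives of the exponents of `G1`-invariants -/
def PB : Set (E (m + 4)) := {α | (α i0 + α i1) % 2 = 0 ∧ (α i2 + α i3) % 2 = 0 ∧
  (α i0 < α i1 ∨ (α i0 = α i1 ∧ α i0 % 2 = 0))}

theorem mem_PA (α : E (m + 4)) : α ∈ PA m ↔
    (α i0 + α i1) % 2 = 0 ∧ (α i2 + α i3) % 2 = 0 ∧ (α i0 + α i2) % 2 = 0 := Iff.rfl

theorem mem_PS (α : E (m + 4)) : α ∈ PS m ↔
    (α i0 + α i1) % 2 = 0 ∧ (α i2 + α i3) % 2 = 0 := Iff.rfl

theorem mem_PB (α : E (m + 4)) : α ∈ PB m ↔ (α i0 + α i1) % 2 = 0 ∧ (α i2 + α i3) % 2 = 0 ∧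
    (α i0 < α i1 ∨ (α i0 = α i1 ∧ α i0 % 2 = 0)) := Iff.rfl

theorem U2_eq (k : ℕ) : U (G2 m) k = restr (PA m) k := by
  ext p
  unfold U
  rw [Submodule.mem_inf, mem_hom, mem_Inv, mem_restr]
  unfold G2
  rw [mem_inv_closure]
  simp only [Set.mem_insert_iff, Set.mem_singleton_iff, forall_eq_or_imp, forall_eq]
  rw [act_T_iff, act_T'_iff, act_S_iff]
  constructor
  · rintro ⟨h1, h2, h3, h4⟩ α hα
    exact ⟨⟨h2 α hα, h3 α hα, h4 α hα⟩, h1 α hα⟩
  · intro h
    exact ⟨fun α hα => (h α hα).2, fun α hα => (h α hα).1.1, fun α hα => (h α hα).1.2.1,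
      fun α hα => (h α hα).1.2.2⟩

theorem mem_U1 (k : ℕ) (p : P (m + 4)) :
    p ∈ U (G1 m) k ↔ p ∈ restr (PS m) k ∧ act R p = p := by
  unfold U
  rw [Submodule.mem_inf, mem_hom, mem_Inv, mem_restr]
  unfold G1
  rw [mem_inv_closure]
  simp only [Set.mem_insert_iff, Set.mem_singleton_iff, forall_eq_or_imp, forall_eq]
  rw [act_T_iff]
  constructor
  · rintro ⟨h1, h2, h3⟩
    refine ⟨fun α hα => ⟨⟨?_, h3 α hα⟩, h1 α hα⟩, h2⟩
    have ha := congrArg (coeff α) h2
    rw [← h2, coeff_R, coeff_R, sw_sw, sw_1, h2] at ha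
    rw [← neg_one_pow_iff]
    apply mul_right_cancel₀ hα
    rw [one_mul, add_comm, pow_add, mul_assoc, ha]
  · rintro ⟨h1, h2⟩
    exact ⟨fun α hα => (h1 α hα).2, h2, fun α hα => (h1 α hα).1.2⟩

theorem R_mem_restr (k : ℕ) (p : P (m + 4)) (hp : p ∈ restr (PS m) k) :
    act R p ∈ restr (PS m) k := by
  rw [mem_restr] at hp ⊢
  intro α hα
  rw [coeff_R] at hα
  obtain ⟨⟨h1, h2⟩, h3⟩ := hp _ (right_ne_zero_of_mul hα)
  rw [sw_0, sw_1] at h1
  rw [sw_2, sw_3] at h2
  refine ⟨⟨by rwa [add_comm], h2⟩, ?_⟩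
  rw [← h3, deg_sw]

theorem R_R (k : ℕ) (p : P (m + 4)) (hp : p ∈ restr (PS m) k) : act R (act R p) = p := by
  rw [mem_restr] at hp
  ext α
  rw [coeff_R, coeff_R, sw_sw, sw_1]
  by_cases h : coeff α p = 0
  · rw [h]; ring
  · have h1 := (hp α h).1.1
    rw [← neg_one_pow_iff, add_comm, pow_add] at h1
    rw [← mul_assoc, h1, one_mul]

/-! ### counting -/

theorem finrank_U1_le (k : ℕ) :
    Module.finrank ℝ (U (G1 m) k) ≤ Nat.card {α : E (m + 4) | α ∈ PB m ∧ deg α = k} := by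
  have := finite_deg (PB m) k
  let Φ : U (G1 m) k →ₗ[ℝ] ({α : E (m + 4) | α ∈ PB m ∧ deg α = k} → ℝ) :=
    LinearMap.pi (fun β => (lcoeff ℝ (β : E (m + 4))) ∘ₗ (U (G1 m) k).subtype)
  have hinj : Function.Injective Φ := by
    rw [← LinearMap.ker_eq_bot, LinearMap.ker_eq_bot']
    rintro ⟨p, hp⟩ h0
    have hB : ∀ β : E (m + 4), β ∈ PB m → deg β = k → coeff β p = 0 := by
      intro β h1 h2
      exact congrFun h0 ⟨β, h1, h2⟩
    apply Subtype.ext
    show p = 0
    obtain ⟨h1, h2⟩ := (mem_U1 k p).1 hp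
    rw [mem_restr] at h1
    ext α
    rw [coeff_zero]
    by_contra hne
    obtain ⟨hS, hd⟩ := h1 α hne
    rw [mem_PS] at hS
    have hR : (-1) ^ α i1 * coeff (sw α) p = coeff α p := by
      rw [← coeff_R, h2]
    rcases lt_trichotomy (α i0) (α i1) with h | h | h
    · exact hne (hB α ((mem_PB α).2 ⟨hS.1, hS.2, Or.inl h⟩) hd)
    · by_cases he : α i0 % 2 = 0
      · exact hne (hB α ((mem_PB α).2 ⟨hS.1, hS.2, Or.inr ⟨h, he⟩⟩) hd)
      · have hodd : Odd (α i1) := by rw [Nat.odd_iff, ← h]; omega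
        rw [sw_eq_self α h, hodd.neg_one_pow] at hR
        apply hne
        linarith
    · have : coeff (sw α) p = 0 := by
        apply hB
        · rw [mem_PB, sw_0, sw_1, sw_2, sw_3]
          refine ⟨by omega, hS.2, Or.inl h⟩
        · rw [← hd, deg_sw]
      rw [this, mul_zero] at hR
      exact hne hR.symm
  have h1 := LinearMap.finrank_le_finrank_of_injective hinj
  have : Fintype {α : E (m + 4) | α ∈ PB m ∧ deg α = k} := Fintype.ofFinite _
  rw [Module.finrank_fintype_fun_eq_card, ← Nat.card_eq_fintype_card] at h1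
  exact h1

theorem le_finrank_U1 (k : ℕ) :
    Nat.card {α : E (m + 4) | α ∈ PB m ∧ deg α = k} ≤ Module.finrank ℝ (U (G1 m) k) := by
  rw [← finrank_restr]
  have hle : restr (PB m) k ≤ restr (PS m) k := by
    intro p hp
    rw [mem_restr] at hp ⊢
    intro α hα
    exact ⟨⟨(hp α hα).1.1, (hp α hα).1.2.1⟩, (hp α hα).2⟩
  have hmem : ∀ q ∈ restr (PB m) k, q + act R q ∈ U (G1 m) k := by
    intro q hq
    rw [mem_U1]
    refine ⟨Submodule.add_mem _ (hle hq) (R_mem_restr _ _ (hle hq)), ?_⟩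
    rw [map_add, R_R _ _ (hle hq)]
    exact add_comm _ _
  let Ψ : restr (PB m) k →ₗ[ℝ] U (G1 m) k :=
    LinearMap.restrict (LinearMap.id + (act R).toLinearMap) hmem
  have hinj : Function.Injective Ψ := by
    rw [← LinearMap.ker_eq_bot, LinearMap.ker_eq_bot']
    rintro ⟨q, hq⟩ h0
    have h1 : q + act R q = 0 := congrArg Subtype.val h0
    apply Subtype.ext
    show q = 0
    rw [mem_restr] at hq
    ext α
    rw [coeff_zero]
    by_contra hne
    obtain ⟨hB, hd⟩ := hq α hne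
    rw [mem_PB] at hB
    have h2 := congrArg (coeff α) h1
    rw [coeff_add, coeff_R, coeff_zero] at h2
    rcases hB with ⟨_, _, h | ⟨h, he⟩⟩
    · have : coeff (sw α) q = 0 := by
        by_contra hc
        obtain ⟨hB', _⟩ := hq _ hc
        rw [mem_PB, sw_0, sw_1] at hB'
        omega
      rw [this, mul_zero, add_zero] at h2
      exact hne h2
    · have heven : Even (α i1) := by rw [Nat.even_iff, ← h]; exact he
      rw [sw_eq_self α h, heven.neg_one_pow] at h2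
      apply hne
      linarith
  exact LinearMap.finrank_le_finrank_of_injective hinj

/-- an explicit exponent -/
noncomputable def ex (a b c d : ℕ) (r : Fin m → ℕ) : E (m + 4) :=
  Finsupp.equivFunOnFinite.symm (vec a b c d r)

theorem ex_0 (a b c d : ℕ) (r : Fin m → ℕ) : ex a b c d r i0 = a := rfl
theorem ex_1 (a b c d : ℕ) (r : Fin m → ℕ) : ex a b c d r i1 = b := rfl
theorem ex_2 (a b c d : ℕ) (r : Fin m → ℕ) : ex a b c d r i2 = c := rfl
theorem ex_3 (a b c d : ℕ) (r : Fin m → ℕ) : ex a b c d r i3 = d := rfl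
theorem ex_t (a b c d : ℕ) (r : Fin m → ℕ) : tail (ex a b c d r) = r := rfl

noncomputable def gBA (a b c d : ℕ) (r : Fin m → ℕ) : E (m + 4) :=
  if a < b then
    if (a + c) % 2 = 0 then ex a b c d r
    else ex (b - 1) (a + 1) c d r
  else
    if c % 2 = 0 then ex (2 * a) 0 c d r
    else ex (2 * a + 2) 0 (c - 1) (d - 1) r

noncomputable def gAB (a b c d : ℕ) (r : Fin m → ℕ) : E (m + 4) :=
  if a < b then ex a b c d r
  else
    if 1 ≤ b then ex (b - 1) (a + 1) c d r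
    else
      if a % 4 = 0 then ex (a / 2) (a / 2) c d r
      else ex (a / 2 - 1) (a / 2 - 1) (c + 1) (d + 1) r

noncomputable def fBA (α : E (m + 4)) : E (m + 4) := gBA (α i0) (α i1) (α i2) (α i3) (tail α)
noncomputable def fAB (α : E (m + 4)) : E (m + 4) := gAB (α i0) (α i1) (α i2) (α i3) (tail α)

theorem fBA_ex (a b c d : ℕ) (r : Fin m → ℕ) : fBA (ex a b c d r) = gBA a b c d r := rfl
theorem fAB_ex (a b c d : ℕ) (r : Fin m → ℕ) : fAB (ex a b c d r) = gAB a b c d r := rfl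

theorem fBA_mem (k : ℕ) (α : E (m + 4)) (h : α ∈ PB m ∧ deg α = k) :
    fBA α ∈ PA m ∧ deg (fBA α) = k := by
  obtain ⟨h1, h2⟩ := h
  rw [mem_PB] at h1
  rw [mem_PA]
  rw [deg_eq] at h2 ⊢
  unfold fBA gBA
  split_ifs <;> simp only [ex_0, ex_1, ex_2, ex_3, ex_t] <;> omega

theorem fAB_mem (k : ℕ) (α : E (m + 4)) (h : α ∈ PA m ∧ deg α = k) :
    fAB α ∈ PB m ∧ deg (fAB α) = k := by
  obtain ⟨h1, h2⟩ := h
  rw [mem_PA] at h1
  rw [mem_PB]
  rw [deg_eq] at h2 ⊢
  unfold fAB gAB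
  split_ifs <;> simp only [ex_0, ex_1, ex_2, ex_3, ex_t, true_and] <;> omega

theorem fAB_fBA (α : E (m + 4)) (h : α ∈ PB m) : fAB (fBA α) = α := by
  rw [mem_PB] at h
  rw [fBA, gBA]
  by_cases c1 : α i0 < α i1
  · rw [if_pos c1]
    by_cases c2 : (α i0 + α i2) % 2 = 0
    · rw [if_pos c2]
      rw [fAB_ex, gAB]
      rw [if_pos c1]
      apply e_ext <;> simp only [ex_0, ex_1, ex_2, ex_3, ex_t]
    · rw [if_neg c2]
      rw [fAB_ex, gAB]
      rw [if_neg (by omega), if_pos (by omega)]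
      apply e_ext <;> simp only [ex_0, ex_1, ex_2, ex_3, ex_t] <;> omega
  · rw [if_neg c1]
    by_cases c2 : α i2 % 2 = 0
    · rw [if_pos c2]
      rw [fAB_ex, gAB]
      rw [if_neg (by omega), if_neg (by omega), if_pos (by omega)]
      apply e_ext <;> simp only [ex_0, ex_1, ex_2, ex_3, ex_t] <;> omega
    · rw [if_neg c2]
      rw [fAB_ex, gAB]
      rw [if_neg (by omega), if_neg (by omega), if_neg (by omega)]
      apply e_ext <;> simp only [ex_0, ex_1, ex_2, ex_3, ex_t] <;> omega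

theorem fBA_fAB (α : E (m + 4)) (h : α ∈ PA m) : fBA (fAB α) = α := by
  rw [mem_PA] at h
  rw [fAB, gAB]
  by_cases c1 : α i0 < α i1
  · rw [if_pos c1]
    rw [fBA_ex, gBA]
    rw [if_pos c1, if_pos h.2.2]
    apply e_ext <;> simp only [ex_0, ex_1, ex_2, ex_3, ex_t]
  · rw [if_neg c1]
    by_cases c2 : 1 ≤ α i1
    · rw [if_pos c2]
      rw [fBA_ex, gBA]
      rw [if_pos (by omega), if_neg (by omega)]
      apply e_ext <;> simp only [ex_0, ex_1, ex_2, ex_3, ex_t] <;> omega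
    · rw [if_neg c2]
      by_cases c3 : α i0 % 4 = 0
      · rw [if_pos c3]
        rw [fBA_ex, gBA]
        rw [if_neg (by omega), if_pos (by omega)]
        apply e_ext <;> simp only [ex_0, ex_1, ex_2, ex_3, ex_t] <;> omega
      · rw [if_neg c3]
        rw [fBA_ex, gBA]
        rw [if_neg (by omega), if_neg (by omega)]
        apply e_ext <;> simp only [ex_0, ex_1, ex_2, ex_3, ex_t] <;> omega

noncomputable def eBA (k : ℕ) :
    {α : E (m + 4) | α ∈ PB m ∧ deg α = k} ≃ {α : E (m + 4) | α ∈ PA m ∧ deg α = k} where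
  toFun := fun α => ⟨fBA α.1, fBA_mem k α.1 α.2⟩
  invFun := fun α => ⟨fAB α.1, fAB_mem k α.1 α.2⟩
  left_inv := fun α => Subtype.ext (fAB_fBA α.1 α.2.1)
  right_inv := fun α => Subtype.ext (fBA_fAB α.1 α.2.1)

theorem finrank_U (k : ℕ) :
    Module.finrank ℝ (U (G1 m) k) = Module.finrank ℝ (U (G2 m) k) := by
  have h1 := le_antisymm (finrank_U1_le (m := m) k) (le_finrank_U1 k)
  rw [h1, U2_eq, finrank_restr]
  exact Nat.card_congr (eBA k)

theorem isospectral (k : ℕ) :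
    Module.finrank ℝ ↥(U (G1 m) k ⊓ LinearMap.ker lap) =
      Module.finrank ℝ ↥(U (G2 m) k ⊓ LinearMap.ker lap) :=
  finrank_harmonic i0 (G1 m) (G2 m) finrank_U k

end Pool.Agent.Helper47.OrbN
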