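import Mathlib

/-!
Invariant harmonic polynomials of a finite subgroup of the orthogonal group, general facts.
-/

set_option autoImplicit false

open MvPolynomial

namespace Pool.Agent.Helper47.OrbN

/-- the orthogonal group -/
abbrev O (n : ℕ) := Matrix.orthogonalGroup (Fin n) ℝ

/-- real polynomials -/
abbrev P (n : ℕ) := MvPolynomial (Fin n) ℝ

/-- exponents -/
abbrev E (n : ℕ) := Fin n →₀ ℕ

variable {n : ℕ}

/-- the substitution `x_i ↦ ∑ j, g i j x_j`. -/
noncomputable def act (g : O n) : P n →ₐ[ℝ] P n :=
  aeval (fun i : Fin n => ∑ j : Fin n, C (g.1 i j) * X j)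

/-- the Laplacian -/
noncomputable def lap : P n →ₗ[ℝ] P n :=
  ∑ i : Fin n, (pderiv i).toLinearMap ∘ₗ (pderiv i).toLinearMap

theorem act_X (g : O n) (i : Fin n) : act g (X i) = ∑ j : Fin n, C (g.1 i j) * X j := by
  simp [act]

theorem act_one (p : P n) : act 1 p = p := by
  have : act 1 = AlgHom.id ℝ (P n) := by
    apply algHom_ext
    intro i
    rw [act_X]
    simp [Matrix.one_apply, Finset.sum_ite_eq]
  rw [this]; rfl

theorem act_mul (g h : O n) (p : P n) : act (h * g) p = act g (act h p) := by
  have : act (h * g) = (act g).comp (act h) := by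
    apply algHom_ext
    intro i
    rw [AlgHom.comp_apply, act_X, act_X, map_sum]
    simp only [map_mul, act_X, algHom_C, Submonoid.coe_mul, Matrix.mul_apply, map_sum]
    simp only [algebraMap_eq, Finset.mul_sum, Finset.sum_mul]
    rw [Finset.sum_comm]
    refine Finset.sum_congr rfl fun j _ => Finset.sum_congr rfl fun k _ => ?_
    ring
  rw [this]; rfl

/-- the stabiliser of a polynomial. -/
noncomputable def stab (p : P n) : Subgroup (O n) where
  carrier := {g | act g p = p}
  mul_mem' := by
    intro a b ha hb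
    simp only [Set.mem_ofPred_eq] at *
    rw [act_mul, ha, hb]
  one_mem' := act_one p
  inv_mem' := by
    intro a ha
    simp only [Set.mem_ofPred_eq] at *
    conv_lhs => rw [← ha]
    rw [← act_mul, mul_inv_cancel, act_one]

theorem mem_inv_closure (S : Set (O n)) (p : P n) :
    (∀ g ∈ Subgroup.closure S, act g p = p) ↔ ∀ g ∈ S, act g p = p := by
  constructor
  · intro h g hg
    exact h g (Subgroup.subset_closure hg)
  · intro h g hg
    have : Subgroup.closure S ≤ stab p := by
      rw [Subgroup.closure_le]
      intro g hg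
      exact h g hg
    exact this hg

/-! ### the Laplacian commutes with the action -/

theorem pderiv_act (g : O n) (j : Fin n) (p : P n) :
    pderiv j (act g p) = ∑ i : Fin n, C (g.1 i j) * act g (pderiv i p) := by
  induction p using MvPolynomial.induction_on with
  | C a => simp [act]
  | add p q hp hq =>
    simp only [map_add, hp, hq, mul_add, Finset.sum_add_distrib]
  | mul_X p k hp =>
    rw [map_mul, pderiv_mul, hp, act_X, map_sum]
    have h1 : ∀ l : Fin n, pderiv j (C (g.1 k l) * X l : P n) = if l = j then C (g.1 k l) else 0 := by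
      intro l
      rw [pderiv_C_mul, pderiv_X, Pi.single_apply]
      split_ifs with h <;> simp
    simp only [h1]
    rw [Finset.sum_ite_eq' Finset.univ j, if_pos (Finset.mem_univ _)]
    have h2 : ∀ i : Fin n, C (g.1 i j) * act g (pderiv i (p * X k)) =
        C (g.1 i j) * act g (pderiv i p) * (∑ l, C (g.1 k l) * X l) +
          (if i = k then act g p * C (g.1 k j) else 0) := by
      intro i
      rw [pderiv_mul, pderiv_X, Pi.single_apply, map_add, map_mul, map_mul, act_X]
      by_cases h : i = k
      · subst h; simp; ring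
      · rw [if_neg h, if_neg (Ne.symm h)]; simp; ring
    simp only [h2]
    rw [Finset.sum_add_distrib, Finset.sum_ite_eq' Finset.univ k, if_pos (Finset.mem_univ _),
      ← Finset.sum_mul]

theorem lap_act (g : O n) (p : P n) : lap (act g p) = act g (lap p) := by
  have horth : ∀ i k : Fin n, ∑ j, g.1 i j * g.1 k j = if i = k then 1 else 0 := by
    intro i k
    have h := (Matrix.mem_orthogonalGroup_iff _ _).1 g.2
    have h1 := congrFun (congrFun h i) k
    rw [Matrix.mul_apply, Matrix.one_apply] at h1
    rw [← h1]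
    rfl
  unfold lap
  simp only [LinearMap.sum_apply, LinearMap.comp_apply, Derivation.coeFn_coe, pderiv_act, map_sum,
    pderiv_C_mul]
  calc ∑ j, ∑ i, C (g.1 i j) * ∑ k, C (g.1 k j) * act g (pderiv k (pderiv i p))
      = ∑ i, ∑ k, (∑ j, C (g.1 i j) * C (g.1 k j)) * act g (pderiv k (pderiv i p)) := by
        rw [Finset.sum_comm]
        refine Finset.sum_congr rfl fun i _ => ?_
        simp only [Finset.mul_sum, Finset.sum_mul]
        rw [Finset.sum_comm]
        refine Finset.sum_congr rfl fun k _ => Finset.sum_congr rfl fun j _ => ?_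
        ring
    _ = ∑ i, act g (pderiv i (pderiv i p)) := by
        refine Finset.sum_congr rfl fun i _ => ?_
        rw [Finset.sum_eq_single i]
        · have : (∑ j, C (g.1 i j) * C (g.1 i j) : P n) = 1 := by
            simp only [← C_mul, ← map_sum]
            rw [horth i i, if_pos rfl]; simp
          rw [this, one_mul]
        · intro k _ hk
          have : (∑ j, C (g.1 i j) * C (g.1 k j) : P n) = 0 := by
            simp only [← C_mul, ← map_sum]
            rw [horth i k, if_neg (Ne.symm hk)]; simp
          rw [this, zero_mul]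
        · intro h; exact absurd (Finset.mem_univ _) h

/-! ### homogeneous polynomials -/

theorem act_hom (g : O n) (k : ℕ) (p : P n) (hp : p ∈ homogeneousSubmodule (Fin n) ℝ k) :
    act g p ∈ homogeneousSubmodule (Fin n) ℝ k := by
  rw [mem_homogeneousSubmodule] at *
  have h := IsHomogeneous.aeval (S := ℝ) (n := 1) hp
    (g := fun i : Fin n => ∑ j : Fin n, C (g.1 i j) * X j) (by
      intro i
      apply IsHomogeneous.sum
      intro j _
      simpa using (isHomogeneous_C (Fin n) (g.1 i j)).mul (isHomogeneous_X ℝ j))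
  rw [one_mul] at h
  exact h

/-- total degree of an exponent -/
def deg (α : E n) : ℕ := ∑ i, α i

theorem mem_hom (k : ℕ) (p : P n) :
    p ∈ homogeneousSubmodule (Fin n) ℝ k ↔ ∀ α, coeff α p ≠ 0 → deg α = k := by
  rw [mem_homogeneousSubmodule]
  unfold IsHomogeneous IsWeightedHomogeneous
  have h : ∀ α : E n, Finsupp.weight (1 : Fin n → ℕ) α = deg α := by
    intro α
    rw [Finsupp.weight_apply, Finsupp.sum_fintype _ _ (by simp)]
    simp [deg]
  constructor
  · intro hp α hα
    rw [← h]; exact hp hα
  · intro hp α hα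
    rw [h]; exact hp α hα

theorem deg_add (α β : E n) : deg (α + β) = deg α + deg β := by
  simp [deg, Finset.sum_add_distrib]

theorem deg_single (i : Fin n) (k : ℕ) : deg (Finsupp.single i k) = k := by
  simp [deg, Finsupp.single_apply, Finset.sum_ite_eq]

theorem coeff_lap (p : P n) (α : E n) :
    coeff α (lap p) = ∑ i : Fin n, ((α i : ℝ) + 2) * ((α i : ℝ) + 1) *
      coeff (α + Finsupp.single i 2) p := by
  unfold lap
  rw [LinearMap.sum_apply, coeff_sum]
  refine Finset.sum_congr rfl fun i _ => ?_
  simp only [LinearMap.comp_apply, Derivation.coeFn_coe, coeff_pderiv]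
  have : α + Finsupp.single i 1 + Finsupp.single i 1 = α + Finsupp.single i 2 := by
    rw [add_assoc, ← Finsupp.single_add]
  rw [this]
  simp only [Finsupp.add_apply, Finsupp.single_eq_same]
  push_cast
  ring

theorem lap_monomial (α : E n) (c : ℝ) :
    lap (monomial α c) = ∑ i : Fin n, monomial (α - Finsupp.single i 2)
      (c * (α i : ℝ) * ((α i - 1 : ℕ) : ℝ)) := by
  unfold lap
  rw [LinearMap.sum_apply]
  refine Finset.sum_congr rfl fun i _ => ?_
  simp only [LinearMap.comp_apply, Derivation.coeFn_coe, pderiv_monomial]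
  congr 1
  · rw [tsub_tsub, ← Finsupp.single_add]
  · simp

theorem lap_hom (k : ℕ) (p : P n) (hp : p ∈ homogeneousSubmodule (Fin n) ℝ (k + 2)) :
    lap p ∈ homogeneousSubmodule (Fin n) ℝ k := by
  rw [mem_hom] at hp ⊢
  intro α hα
  rw [coeff_lap] at hα
  obtain ⟨i, _, hi⟩ := Finset.exists_ne_zero_of_sum_ne_zero hα
  have h2 := hp _ (right_ne_zero_of_mul hi)
  rw [deg_add, deg_single] at h2
  omega

theorem lap_eq_zero (k : ℕ) (hk : k < 2) (p : P n)
    (hp : p ∈ homogeneousSubmodule (Fin n) ℝ k) : lap p = 0 := by
  rw [mem_hom] at hp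
  ext α
  rw [coeff_lap, coeff_zero]
  refine Finset.sum_eq_zero fun i _ => ?_
  by_cases h : coeff (α + Finsupp.single i 2) p = 0
  · rw [h, mul_zero]
  · have h2 := hp _ h
    rw [deg_add, deg_single] at h2
    omega

theorem monomial_hom (α : E n) (c : ℝ) :
    (monomial α c : P n) ∈ homogeneousSubmodule (Fin n) ℝ (deg α) := by
  rw [mem_hom]
  intro β hβ
  rw [coeff_monomial] at hβ
  split_ifs at hβ with h
  · rw [h]
  · exact absurd rfl hβ

theorem monomial_mem_map (p : Fin n) (k : ℕ) :
    ∀ N : ℕ, ∀ β : E n, deg β = k → ∑ i ∈ Finset.univ.erase p, β i = N →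
      (monomial β 1 : P n) ∈ Submodule.map lap (homogeneousSubmodule (Fin n) ℝ (k + 2)) := by
  intro N
  induction N using Nat.strong_induction_on with
  | _ N ih =>
    intro β hd hn
    set a : ℝ := 1 / (((β p : ℝ) + 2) * ((β p : ℝ) + 1)) with ha
    have hmem : lap (monomial (β + Finsupp.single p 2) a) ∈
        Submodule.map lap (homogeneousSubmodule (Fin n) ℝ (k + 2)) := by
      apply Submodule.mem_map_of_mem
      have := monomial_hom (β + Finsupp.single p 2) a
      rwa [deg_add, deg_single, hd] at this
    rw [lap_monomial, ← Finset.add_sum_erase _ _ (Finset.mem_univ p)] at hmem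
    have hlast : (monomial (β + Finsupp.single p 2 - Finsupp.single p 2)
        (a * (((β + Finsupp.single p 2 : E n) p : ℕ) : ℝ) *
          (((β + Finsupp.single p 2 : E n) p - 1 : ℕ) : ℝ)) : P n) = monomial β 1 := by
      rw [add_tsub_cancel_right]
      congr 1
      simp only [Finsupp.add_apply, Finsupp.single_eq_same]
      have h1 : ((β p + 2 - 1 : ℕ) : ℝ) = (β p : ℝ) + 1 := by
        have : β p + 2 - 1 = β p + 1 := by omega
        rw [this]; push_cast; ring
      rw [h1, ha]
      push_cast
      have h2 : (β p : ℝ) + 2 ≠ 0 := by positivity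
      have h3 : (β p : ℝ) + 1 ≠ 0 := by positivity
      field_simp
    rw [hlast] at hmem
    have hrest : (∑ i ∈ Finset.univ.erase p, (monomial (β + Finsupp.single p 2 - Finsupp.single i 2)
        (a * (((β + Finsupp.single p 2 : E n) i : ℕ) : ℝ) *
          (((β + Finsupp.single p 2 : E n) i - 1 : ℕ) : ℝ)) : P n)) ∈
          Submodule.map lap (homogeneousSubmodule (Fin n) ℝ (k + 2)) := by
      apply Submodule.sum_mem
      intro i hi
      have hip : i ≠ p := Finset.ne_of_mem_erase hi
      have hv : (β + Finsupp.single p 2 : E n) i = β i := by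
        rw [Finsupp.add_apply, Finsupp.single_eq_of_ne hip, add_zero]
      rw [hv]
      by_cases h2 : 2 ≤ β i
      · have hγ : (monomial (β + Finsupp.single p 2 - Finsupp.single i 2) 1 : P n) ∈
          Submodule.map lap (homogeneousSubmodule (Fin n) ℝ (k + 2)) := by
          set γ : E n := β + Finsupp.single p 2 - Finsupp.single i 2 with hγdef
          have hle : Finsupp.single i 2 ≤ β + Finsupp.single p 2 := by
            rw [Finsupp.single_le_iff, hv]; exact h2
          have hγadd : γ + Finsupp.single i 2 = β + Finsupp.single p 2 := tsub_add_cancel_of_le hle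
          have hdγ : deg γ = k := by
            have := congrArg deg hγadd
            rw [deg_add, deg_add, deg_single, deg_single] at this
            omega
          have hsum : ∑ j ∈ Finset.univ.erase p, γ j < N := by
            rw [← hn]
            have h3 : ∑ j ∈ Finset.univ.erase p, (γ + Finsupp.single i 2 : E n) j =
                ∑ j ∈ Finset.univ.erase p, (β + Finsupp.single p 2 : E n) j := by rw [hγadd]
            have h4 : ∑ j ∈ Finset.univ.erase p, (Finsupp.single i 2 : E n) j = 2 := by
              rw [Finset.sum_eq_single i]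
              · simp
              · intro j _ hj; rw [Finsupp.single_eq_of_ne hj]
              · intro h; exact absurd hi h
            have h5 : ∑ j ∈ Finset.univ.erase p, (Finsupp.single p 2 : E n) j = 0 := by
              apply Finset.sum_eq_zero
              intro j hj
              rw [Finsupp.single_eq_of_ne (Finset.ne_of_mem_erase hj)]
            simp only [Finsupp.add_apply, Finset.sum_add_distrib] at h3
            rw [h4, h5] at h3
            omega
          exact ih _ hsum γ hdγ rfl
        have := Submodule.smul_mem _ (a * (β i : ℝ) * ((β i - 1 : ℕ) : ℝ)) hγ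
        rw [smul_monomial] at this
        simpa using this
      · have h01 : β i = 0 ∨ β i = 1 := by omega
        have : (a * (β i : ℝ) * ((β i - 1 : ℕ) : ℝ)) = 0 := by
          rcases h01 with h | h <;> simp [h]
        rw [this, map_zero]
        exact Submodule.zero_mem _
    have := Submodule.sub_mem _ hmem hrest
    rwa [add_sub_cancel_right] at this

theorem hom_le_map (p : Fin n) (k : ℕ) : homogeneousSubmodule (Fin n) ℝ k ≤
    Submodule.map lap (homogeneousSubmodule (Fin n) ℝ (k + 2)) := by
  intro q hq
  rw [mem_hom] at hq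
  rw [q.as_sum]
  apply Submodule.sum_mem
  intro β hβ
  have h := hq β (mem_support_iff.1 hβ)
  have h1 := monomial_mem_map p k _ β h rfl
  have := Submodule.smul_mem _ (coeff β q) h1
  rw [smul_monomial] at this
  simpa using this

/-! ### invariants of a finite group -/

/-- the invariants of a group -/
noncomputable def Inv (Γ : Subgroup (O n)) : Submodule ℝ (P n) :=
  ⨅ g ∈ Γ, LinearMap.ker ((act g).toLinearMap - LinearMap.id)

theorem mem_Inv (Γ : Subgroup (O n)) (p : P n) : p ∈ Inv Γ ↔ ∀ g ∈ Γ, act g p = p := by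
  simp [Inv, Submodule.mem_iInf, LinearMap.mem_ker, sub_eq_zero]

/-- the degree `k` invariants -/
noncomputable def U (Γ : Subgroup (O n)) (k : ℕ) : Submodule ℝ (P n) :=
  homogeneousSubmodule (Fin n) ℝ k ⊓ Inv Γ

theorem map_U (p : Fin n) (Γ : Subgroup (O n)) [Finite Γ] (k : ℕ) :
    Submodule.map lap (U Γ (k + 2)) = U Γ k := by
  apply le_antisymm
  · rintro _ ⟨q, hq, rfl⟩
    refine ⟨lap_hom k q hq.1, ?_⟩
    rw [SetLike.mem_coe, mem_Inv]
    intro g hg
    rw [← lap_act, (mem_Inv Γ q).1 hq.2 g hg]
  · intro q hq
    obtain ⟨r, hr, hrq⟩ := hom_le_map p k hq.1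
    have := Fintype.ofFinite Γ
    have hcard : (Fintype.card Γ : ℝ) ≠ 0 := by
      have : 0 < Fintype.card Γ := Fintype.card_pos
      positivity
    refine ⟨(1 / (Fintype.card Γ : ℝ)) • ∑ g : Γ, act g.1 r, ⟨?_, ?_⟩, ?_⟩
    · exact Submodule.smul_mem _ _ (Submodule.sum_mem _ fun g _ => act_hom g.1 _ r hr)
    · rw [SetLike.mem_coe, mem_Inv]
      intro h hh
      rw [map_smul, map_sum]
      congr 1
      have h1 : ∀ g : Γ, act h (act g.1 r) = act (g * (⟨h, hh⟩ : Γ)).1 r := by
        intro g
        rw [← act_mul]; rfl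
      simp only [h1]
      exact Fintype.sum_equiv (Equiv.mulRight (⟨h, hh⟩ : Γ)) _ _ (fun g => rfl)
    · rw [map_smul, map_sum]
      simp only [lap_act, hrq]
      have h1 : ∀ g : Γ, act g.1 q = q := fun g => (mem_Inv Γ q).1 hq.2 g.1 g.2
      simp only [h1, Finset.sum_const, Finset.card_univ]
      rw [← Nat.cast_smul_eq_nsmul ℝ, smul_smul, one_div, inv_mul_cancel₀ hcard, one_smul]

/-! ### finite dimensionality -/

/-- polynomials with exponents in `A` and of degree `k` -/
noncomputable def restr (A : Set (E n)) (k : ℕ) : Submodule ℝ (P n) :=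
  restrictSupport ℝ {α | α ∈ A ∧ deg α = k}

theorem mem_restr (A : Set (E n)) (k : ℕ) (p : P n) :
    p ∈ restr A k ↔ ∀ α, coeff α p ≠ 0 → α ∈ A ∧ deg α = k := by
  unfold restr
  rw [mem_restrictSupport_iff]
  constructor
  · intro h α hα
    exact h (by simpa [mem_support_iff] using hα)
  · intro h α hα
    exact h α (by simpa [mem_support_iff] using hα)

theorem finite_deg (A : Set (E n)) (k : ℕ) : Finite {α : E n | α ∈ A ∧ deg α = k} := by
  have h : Set.Finite {α : E n | α ∈ A ∧ deg α = k} := by
    apply Set.Finite.subset (Set.finite_Iic (Finsupp.equivFunOnFinite.symm (fun _ : Fin n => k)))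
    rintro α ⟨_, h⟩
    rw [Set.mem_Iic]
    intro i
    simp only [Finsupp.equivFunOnFinite_symm_apply_apply]
    rw [← h]
    exact Finset.single_le_sum (f := fun i => α i) (fun _ _ => Nat.zero_le _) (Finset.mem_univ i)
  exact h.to_subtype

instance finiteDim_restr (A : Set (E n)) (k : ℕ) : FiniteDimensional ℝ (restr A k) := by
  have := finite_deg A k
  exact Module.Finite.of_basis (basisRestrictSupport ℝ {α : E n | α ∈ A ∧ deg α = k})

theorem finrank_restr (A : Set (E n)) (k : ℕ) :
    Module.finrank ℝ (restr A k) = Nat.card {α : E n | α ∈ A ∧ deg α = k} :=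
  Module.finrank_eq_nat_card_basis (basisRestrictSupport ℝ {α : E n | α ∈ A ∧ deg α = k})

theorem U_le (Γ : Subgroup (O n)) (k : ℕ) : U Γ k ≤ restr Set.univ k := by
  intro p hp
  rw [mem_restr]
  intro α hα
  exact ⟨Set.mem_univ _, (mem_hom k p).1 hp.1 α hα⟩

instance finiteDim_U (Γ : Subgroup (O n)) (k : ℕ) : FiniteDimensional ℝ (U Γ k) :=
  Submodule.finiteDimensional_of_le (U_le Γ k)

/-- rank-nullity for the Laplacian -/
theorem rank_nullity (p : Fin n) (Γ : Subgroup (O n)) [Finite Γ] (k : ℕ) :
    Module.finrank ℝ (U Γ k) + Module.finrank ℝ ↥(U Γ (k + 2) ⊓ LinearMap.ker lap) =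
      Module.finrank ℝ (U Γ (k + 2)) := by
  have h := LinearMap.finrank_range_add_finrank_ker (lap.domRestrict (U Γ (k + 2)))
  rw [LinearMap.range_domRestrict, map_U p, LinearMap.ker_domRestrict] at h
  rw [← h]
  congr 1
  rw [← Submodule.map_comap_subtype, Submodule.finrank_map_subtype_eq]

/-- groups with the same numbers of invariants of each degree have the same numbers of harmonic
invariants. -/
theorem finrank_harmonic (p : Fin n) (Γ Γ' : Subgroup (O n)) [Finite Γ] [Finite Γ']
    (h : ∀ k, Module.finrank ℝ (U Γ k) = Module.finrank ℝ (U Γ' k)) (k : ℕ) :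
    Module.finrank ℝ ↥(U Γ k ⊓ LinearMap.ker lap) =
      Module.finrank ℝ ↥(U Γ' k ⊓ LinearMap.ker lap) := by
  by_cases hk : k < 2
  · have h1 : ∀ G : Subgroup (O n), U G k ⊓ LinearMap.ker lap = U G k := by
      intro G
      apply inf_eq_left.2
      intro p hp
      exact lap_eq_zero k hk p hp.1
    rw [h1, h1, h]
  · obtain ⟨j, rfl⟩ : ∃ j, k = j + 2 := ⟨k - 2, by omega⟩
    have h1 := rank_nullity p Γ j
    have h2 := rank_nullity p Γ' j
    have h3 := h j
    have h4 := h (j + 2)
    omega

end Pool.Agent.Helper47.OrbN
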