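import Pool.Agent.Helper47.OrbN.Gen

/-!
Two groups of orthogonal matrices of size `m + 4`: `G1`, generated by a quarter turn of the first two
coordinates and the change of sign of the next two, and `G2`, the even sign changes of the first four
coordinates.
-/

set_option autoImplicit false

open MvPolynomial

namespace Pool.Agent.Helper47.OrbN

variable {n m : ℕ}

/-! ### signed permutation matrices -/

/-- signed permutation matrix -/
def SP (π : Equiv.Perm (Fin n)) (ε : Fin n → ℝ) : Matrix (Fin n) (Fin n) ℝ :=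
  fun i j => if j = π i then ε i else 0

theorem SP_mem (π : Equiv.Perm (Fin n)) (ε : Fin n → ℝ) (h : ∀ i, ε i * ε i = 1) :
    SP π ε ∈ Matrix.orthogonalGroup (Fin n) ℝ := by
  rw [Matrix.mem_orthogonalGroup_iff]
  ext i k
  rw [Matrix.mul_apply, Matrix.one_apply, Finset.sum_eq_single (π i)]
  · show SP π ε i (π i) * SP π ε k (π i) = _
    unfold SP
    rw [if_pos rfl]
    by_cases hik : i = k
    · subst hik; rw [if_pos rfl, if_pos rfl]; exact h i
    · rw [if_neg (fun h' => hik (π.injective h')), if_neg hik, mul_zero]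
  · intro j _ hj
    show SP π ε i j * SP π ε k j = 0
    unfold SP
    rw [if_neg hj, zero_mul]
  · intro h'; exact absurd (Finset.mem_univ _) h'

/-- signed permutation matrix, as an element of the orthogonal group -/
def sp (π : Equiv.Perm (Fin n)) (ε : Fin n → ℝ) (h : ∀ i, ε i * ε i = 1) : O n :=
  ⟨SP π ε, SP_mem π ε h⟩

theorem act_sp_X (π : Equiv.Perm (Fin n)) (ε : Fin n → ℝ) (h : ∀ i, ε i * ε i = 1) (i : Fin n) :
    act (sp π ε h) (X i) = C (ε i) * X (π i) := by
  rw [act_X, Finset.sum_eq_single (π i)]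
  · show C (SP π ε i (π i)) * X (π i) = _
    unfold SP
    rw [if_pos rfl]
  · intro j _ hj
    show C (SP π ε i j) * X j = 0
    unfold SP
    rw [if_neg hj]; simp
  · intro h'; exact absurd (Finset.mem_univ _) h'

theorem act_sp_monomial (π : Equiv.Perm (Fin n)) (ε : Fin n → ℝ) (h : ∀ i, ε i * ε i = 1)
    (α : E n) (c : ℝ) : act (sp π ε h) (monomial α c) =
      monomial (Finsupp.equivMapDomain π α) ((∏ i, ε i ^ α i) * c) := by
  have h1 : act (sp π ε h) (monomial α c) =
      C c * ∏ i, (C (ε i) * X (π i) : P n) ^ α i := by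
    conv_lhs => rw [monomial_eq, Finsupp.prod_fintype _ _ (by simp)]
    rw [map_mul, map_prod]
    simp only [map_pow, act_sp_X]
    congr 1
    simp [act]
  rw [h1, monomial_eq (s := Finsupp.equivMapDomain π α), Finsupp.prod_fintype _ _ (by simp)]
  have h2 : ∏ j, (X j : P n) ^ (Finsupp.equivMapDomain π α) j = ∏ i, (X (π i) : P n) ^ α i := by
    rw [← Equiv.prod_comp π]
    refine Finset.prod_congr rfl fun i _ => ?_
    rw [Finsupp.equivMapDomain_apply, Equiv.symm_apply_apply]
  rw [h2]
  simp only [mul_pow, Finset.prod_mul_distrib, map_mul, map_prod, map_pow]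
  ring

theorem coeff_act_sp (π : Equiv.Perm (Fin n)) (ε : Fin n → ℝ) (h : ∀ i, ε i * ε i = 1)
    (p : P n) (α : E n) : coeff (Finsupp.equivMapDomain π α) (act (sp π ε h) p) =
      (∏ i, ε i ^ α i) * coeff α p := by
  induction p using MvPolynomial.induction_on' with
  | monomial β c =>
    rw [act_sp_monomial, coeff_monomial, coeff_monomial]
    have hiff : Finsupp.equivMapDomain π β = Finsupp.equivMapDomain π α ↔ β = α := by
      constructor
      · intro h'
        ext i
        have := DFunLike.congr_fun h' (π i)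
        simpa [Finsupp.equivMapDomain_apply] using this
      · rintro rfl; rfl
    by_cases hβ : β = α
    · rw [if_pos (hiff.2 hβ), if_pos hβ, hβ]
    · rw [if_neg (fun h' => hβ (hiff.1 h')), if_neg hβ, mul_zero]
  | add p q hp hq =>
    rw [map_add, coeff_add, coeff_add, hp, hq]; ring

/-! ### coordinates -/

/-- first coordinate -/
def i0 : Fin (m + 4) := 0
/-- second coordinate -/
def i1 : Fin (m + 4) := Fin.succ 0
/-- third coordinate -/
def i2 : Fin (m + 4) := Fin.succ (Fin.succ 0)
/-- fourth coordinate -/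
def i3 : Fin (m + 4) := Fin.succ (Fin.succ (Fin.succ 0))

/-- a vector with given first four entries -/
def vec {R : Type} (a b c d : R) (r : Fin m → R) : Fin (m + 4) → R :=
  Fin.cons a (Fin.cons b (Fin.cons c (Fin.cons d r)))

theorem vec_0 {R : Type} (a b c d : R) (r : Fin m → R) : vec a b c d r i0 = a := rfl
theorem vec_1 {R : Type} (a b c d : R) (r : Fin m → R) : vec a b c d r i1 = b := rfl
theorem vec_2 {R : Type} (a b c d : R) (r : Fin m → R) : vec a b c d r i2 = c := rfl
theorem vec_3 {R : Type} (a b c d : R) (r : Fin m → R) : vec a b c d r i3 = d := rfl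
theorem vec_t {R : Type} (a b c d : R) (r : Fin m → R) (j : Fin m) :
    vec a b c d r j.succ.succ.succ.succ = r j := rfl

theorem forall_fin {Q : Fin (m + 4) → Prop} (h0 : Q i0) (h1 : Q i1) (h2 : Q i2) (h3 : Q i3)
    (h4 : ∀ j : Fin m, Q j.succ.succ.succ.succ) : ∀ i, Q i := by
  intro i
  refine Fin.cases h0 (fun i => ?_) i
  refine Fin.cases h1 (fun i => ?_) i
  refine Fin.cases h2 (fun i => ?_) i
  refine Fin.cases h3 (fun i => ?_) i
  exact h4 i

/-- the remaining exponents -/
def tail (α : E (m + 4)) : Fin m → ℕ := fun j => α j.succ.succ.succ.succ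

theorem e_ext {α β : E (m + 4)} (h0 : α i0 = β i0) (h1 : α i1 = β i1) (h2 : α i2 = β i2)
    (h3 : α i3 = β i3) (ht : tail α = tail β) : α = β := by
  apply Finsupp.ext
  exact forall_fin h0 h1 h2 h3 (fun j => congrFun ht j)

theorem deg_eq (α : E (m + 4)) : deg α = α i0 + α i1 + α i2 + α i3 + ∑ j, tail α j := by
  unfold deg
  rw [Fin.sum_univ_succ, Fin.sum_univ_succ, Fin.sum_univ_succ, Fin.sum_univ_succ]
  show α i0 + (α i1 + (α i2 + (α i3 + ∑ j, tail α j))) = _
  ring

theorem prod_vec (a b c d : ℝ) (α : E (m + 4)) :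
    ∏ i, vec a b c d (fun _ => (1 : ℝ)) i ^ α i = a ^ α i0 * b ^ α i1 * c ^ α i2 * d ^ α i3 := by
  rw [Fin.prod_univ_succ, Fin.prod_univ_succ, Fin.prod_univ_succ, Fin.prod_univ_succ]
  show a ^ α i0 * (b ^ α i1 * (c ^ α i2 * (d ^ α i3 *
    ∏ j : Fin m, (1 : ℝ) ^ α j.succ.succ.succ.succ))) = _
  simp only [one_pow, Finset.prod_const_one]
  ring

theorem vec_sq (a b c d : ℝ) (ha : a * a = 1) (hb : b * b = 1) (hc : c * c = 1) (hd : d * d = 1) :
    ∀ i : Fin (m + 4), vec a b c d (fun _ => (1 : ℝ)) i * vec a b c d (fun _ => (1 : ℝ)) i = 1 :=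
  forall_fin ha hb hc hd (fun _ => mul_one 1)

theorem i01 : (i0 : Fin (m + 4)) ≠ i1 := (Fin.succ_ne_zero _).symm
theorem i02 : (i0 : Fin (m + 4)) ≠ i2 := (Fin.succ_ne_zero _).symm
theorem i03 : (i0 : Fin (m + 4)) ≠ i3 := (Fin.succ_ne_zero _).symm
theorem i12 : (i1 : Fin (m + 4)) ≠ i2 := fun h => Fin.succ_ne_zero _ (Fin.succ_injective _ h).symm
theorem i13 : (i1 : Fin (m + 4)) ≠ i3 := fun h => Fin.succ_ne_zero _ (Fin.succ_injective _ h).symm
theorem i0t (j : Fin m) : (i0 : Fin (m + 4)) ≠ j.succ.succ.succ.succ := (Fin.succ_ne_zero _).symm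
theorem i1t (j : Fin m) : (i1 : Fin (m + 4)) ≠ j.succ.succ.succ.succ :=
  fun h => Fin.succ_ne_zero _ (Fin.succ_injective _ h).symm

/-! ### the groups -/

/-- quarter turn of the first two coordinates -/
def R : O (m + 4) := sp (Equiv.swap i0 i1) (vec (-1) 1 1 1 (fun _ => 1))
  (vec_sq _ _ _ _ (by norm_num) (by norm_num) (by norm_num) (by norm_num))

/-- change of sign of the third and fourth coordinate -/
def T : O (m + 4) := sp 1 (vec 1 1 (-1) (-1) (fun _ => 1))
  (vec_sq _ _ _ _ (by norm_num) (by norm_num) (by norm_num) (by norm_num))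

/-- change of sign of the first and second coordinate -/
def T' : O (m + 4) := sp 1 (vec (-1) (-1) 1 1 (fun _ => 1))
  (vec_sq _ _ _ _ (by norm_num) (by norm_num) (by norm_num) (by norm_num))

/-- change of sign of the first and third coordinate -/
def S : O (m + 4) := sp 1 (vec (-1) 1 (-1) 1 (fun _ => 1))
  (vec_sq _ _ _ _ (by norm_num) (by norm_num) (by norm_num) (by norm_num))

variable (m) in
/-- the group of type `C₄ × C₂` -/
def G1 : Subgroup (O (m + 4)) := Subgroup.closure {R, T}

variable (m) in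
/-- the group of even sign changes of the first four coordinates, of type `C₂³` -/
def G2 : Subgroup (O (m + 4)) := Subgroup.closure {T', T, S}

/-! ### finiteness -/

variable (n) in
/-- integral orthogonal matrices -/
def IntO : Subgroup (O n) where
  carrier := {g | ∀ i j, ∃ k : ℤ, g.1 i j = k}
  mul_mem' := by
    intro a b ha hb i j
    choose f hf using ha
    choose f' hf' using hb
    refine ⟨∑ k, f i k * f' k j, ?_⟩
    rw [Submonoid.coe_mul, Matrix.mul_apply]
    push_cast
    refine Finset.sum_congr rfl fun k _ => ?_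
    rw [← hf, ← hf']
  one_mem' := by
    intro i j
    refine ⟨if i = j then 1 else 0, ?_⟩
    rw [OneMemClass.coe_one, Matrix.one_apply]
    split_ifs <;> simp
  inv_mem' := by
    intro a ha i j
    obtain ⟨n, hn⟩ := ha j i
    refine ⟨n, ?_⟩
    rw [← hn]
    rfl

theorem intO_finite : Finite (IntO n) := by
  have hfin : Set.Finite {g : O n | ∀ i j, g.1 i j ∈ ({-1, 0, 1} : Set ℝ)} := by
    have h1 : Set.Finite (Set.pi Set.univ (fun _ : Fin n => Set.pi Set.univ
        (fun _ : Fin n => ({-1, 0, 1} : Set ℝ)))) := by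
      apply Set.Finite.pi
      intro i
      apply Set.Finite.pi
      intro j
      exact Set.toFinite _
    refine Set.Finite.subset (Set.Finite.preimage (f := fun g : O n => (fun i j => g.1 i j)) ?_ h1) ?_
    · intro a _ b _ hab
      apply Subtype.ext
      ext i j
      exact congrFun (congrFun hab i) j
    · intro g hg
      simp only [Set.mem_preimage, Set.mem_pi, Set.mem_univ, forall_true_left]
      intro i j
      exact hg i j
  have hsub : (IntO n : Set (O n)) ⊆ {g : O n | ∀ i j, g.1 i j ∈ ({-1, 0, 1} : Set ℝ)} := by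
    intro g hg i j
    obtain ⟨k, hk⟩ := hg i j
    have hb : ‖g.1 i j‖ ≤ 1 := entry_norm_bound_of_unitary g.2 i j
    rw [hk, Real.norm_eq_abs] at hb
    have hb' : |k| ≤ 1 := by exact_mod_cast hb
    rw [abs_le] at hb'
    have : k = -1 ∨ k = 0 ∨ k = 1 := by omega
    rw [hk]
    rcases this with rfl | rfl | rfl <;> simp
  exact (hfin.subset hsub).to_subtype

theorem sp_int (π : Equiv.Perm (Fin n)) (ε : Fin n → ℝ) (h : ∀ i, ε i * ε i = 1) :
    sp π ε h ∈ IntO n := by
  intro i j
  have h1 : ε i = 1 ∨ ε i = -1 := mul_self_eq_one_iff.1 (h i)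
  show ∃ k : ℤ, SP π ε i j = k
  unfold SP
  split_ifs
  · rcases h1 with h1 | h1
    · exact ⟨1, by rw [h1]; simp⟩
    · exact ⟨-1, by rw [h1]; simp⟩
  · exact ⟨0, by simp⟩

theorem finite_closure (A : Set (O n)) (hA : ∀ g ∈ A, g ∈ IntO n) :
    Finite (Subgroup.closure A) := by
  have h : Subgroup.closure A ≤ IntO n := (Subgroup.closure_le _).2 hA
  have := intO_finite (n := n)
  exact Finite.of_injective _ (Subgroup.inclusion_injective h)

instance G1_finite : Finite (G1 m) := by
  apply finite_closure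
  intro g hg
  rcases hg with rfl | rfl <;> exact sp_int _ _ _

instance G2_finite : Finite (G2 m) := by
  apply finite_closure
  intro g hg
  rcases hg with rfl | rfl | rfl <;> exact sp_int _ _ _

/-! ### the groups are not isomorphic -/

variable (n) in
/-- diagonal orthogonal matrices -/
def DiagO : Subgroup (O n) where
  carrier := {g | ∀ i j, i ≠ j → g.1 i j = 0}
  mul_mem' := by
    intro a b ha hb i j hij
    rw [Submonoid.coe_mul, Matrix.mul_apply]
    refine Finset.sum_eq_zero fun k _ => ?_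
    by_cases hik : i = k
    · subst hik
      rw [hb i j hij, mul_zero]
    · rw [ha i k hik, zero_mul]
  one_mem' := by
    intro i j hij
    rw [OneMemClass.coe_one, Matrix.one_apply_ne hij]
  inv_mem' := by
    intro a ha i j hij
    have := ha j i hij.symm
    show (star a.1) i j = 0
    rw [Matrix.star_apply, this, star_zero]

theorem DiagO_sq (g : O n) (hg : g ∈ DiagO n) : g * g = 1 := by
  have h1 : g⁻¹ = g := by
    apply Subtype.ext
    show star g.1 = g.1
    ext i j
    rw [Matrix.star_apply]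
    by_cases hij : i = j
    · subst hij; simp
    · rw [hg i j hij, hg j i (Ne.symm hij)]; simp
  calc g * g = g⁻¹ * g := by rw [h1]
    _ = 1 := inv_mul_cancel g

theorem G2_le_diag : G2 m ≤ DiagO (m + 4) := by
  unfold G2
  rw [Subgroup.closure_le]
  intro g hg
  rcases hg with rfl | rfl | rfl <;>
  · intro i j hij
    exact if_neg (fun h => hij h.symm)

theorem G2_sq (g : G2 m) : g * g = 1 := Subtype.ext (DiagO_sq g.1 (G2_le_diag g.2))

theorem act_R_X0 : act (R : O (m + 4)) (X i0) = - X i1 := by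
  unfold R
  rw [act_sp_X, Equiv.swap_apply_left, vec_0]; simp

theorem act_R_X1 : act (R : O (m + 4)) (X i1) = X i0 := by
  unfold R
  rw [act_sp_X, Equiv.swap_apply_right, vec_1]; simp

theorem R_sq_ne : (R : O (m + 4)) * R ≠ 1 := by
  intro h
  have h1 := act_mul R R (X i0 : P (m + 4))
  rw [h, act_one, act_R_X0, map_neg, act_R_X1] at h1
  have h2 := congrArg (coeff (Finsupp.single i0 1)) h1
  rw [coeff_neg, coeff_X] at h2
  norm_num at h2

theorem not_iso : ¬ Nonempty (G1 m ≃* G2 m) := by
  rintro ⟨e⟩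
  have hR : R ∈ G1 m := Subgroup.subset_closure (by simp)
  have h1 : (⟨R, hR⟩ : G1 m) * ⟨R, hR⟩ = 1 := by
    apply e.injective
    rw [map_mul, map_one, G2_sq]
  exact R_sq_ne (congrArg Subtype.val h1)

theorem not_conj : ¬ ∃ h : O (m + 4), ∀ g, g ∈ G1 m ↔ h * g * h⁻¹ ∈ G2 m := by
  rintro ⟨h, hh⟩
  have hR : R ∈ G1 m := Subgroup.subset_closure (by simp)
  have h2 := DiagO_sq _ (G2_le_diag ((hh R).1 hR))
  apply R_sq_ne (m := m)
  have h3 : h * (R * R) * h⁻¹ = 1 := by
    rw [← h2]; group
  have h4 : (R : O (m + 4)) * R = h⁻¹ * (h * (R * R) * h⁻¹) * h := by group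
  rw [h4, h3]; group

end Pool.Agent.Helper47.OrbN
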